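import Pool.Agent.H7.FF.Main

/-!
# One sided bounds for Montgomery's function `F(α, T)` decide the pair correlation conjecture

Montgomery's function `F(α, T)` is expected to tend, as a measure in `α`, to `δ₀ + min(|α|, 1) dα`.
Assume RH and let `ℓ > 0` be ANY window length.  Along `T → ∞` (or along any sequence of heights)
the pair correlation conjecture, for all windows, is equivalent to the upper bound
`∫_b^(b + ℓ) F(α, T) dα ≤ mass of [b, b + ℓ] + o(1)` for every real `b`.  It is also equivalent to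
the lower bound for the same windows together with a weak form of repulsion,
`N(T; -δ, δ) ≤ (1 + o(δ)) (T / 2π) log T` as `δ → 0`.  So if the conjecture fails then for every
length `ℓ` some window of length `ℓ` carries too much mass of `F`.

Idea of the proof.  Let `ν` be the difference of a limit of the pair correlation measures and of the
GUE measure, and `σ` its Fourier transform, the discrepancy of the form factor.  Let `σ_ℓ(c)` be the
mass of `σ` on the window of centre `c`; its transform is `ℓ sinc(π ℓ u) ν`.  The test function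
`φ(c / n)` with `φ`, `φ^` nonnegative sees `ν` only near `u = 0`, where `ν` is almost nonnegative
(the diagonal, and the quadratic vanishing of the GUE density), with no normalising factor.  Hence
the total mass of `σ_ℓ` is nonnegative, and if `σ_ℓ ≤ 0` then `σ_ℓ = 0`.  Then `ν` is carried by the
zeros of `sinc(π ℓ u)`, where it is nonnegative as the GUE measure has no atoms there.  A
nonnegative measure whose transform vanishes on `(-1, 1)` (Montgomery's theorem) is `0`.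
-/

open Filter Topology Complex

namespace Pool.Agent.Results.MP_103a5c_nt.FormFactorOneSided

/-- the nontrivial zeros of `ζ` with ordinate in `(0, T]` -/
def zeros (T : ℝ) : Set ℂ :=
  {s : ℂ | 0 < s.re ∧ s.re < 1 ∧ 0 < s.im ∧ s.im ≤ T ∧ riemannZeta s = 0}

/-- the multiplicity of `s` as a zero of `ζ` -/
noncomputable def mult (s : ℂ) : ℕ := analyticOrderNatAt riemannZeta s

/-- Montgomery's function `F(α, T)`:
`((T/2π) log T)⁻¹ ∑_γ ∑_γ' T ^ (iα(γ - γ')) w(γ - γ')`, `w(u) = 4 / (4 + u²)`, the zeros being counted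
with multiplicity -/
noncomputable def F (α T : ℝ) : ℂ :=
  ((T / (2 * Real.pi) * Real.log T : ℝ) : ℂ)⁻¹ *
    ∑ᶠ s ∈ zeros T, ∑ᶠ s' ∈ zeros T, (mult s : ℂ) * (mult s' : ℂ) *
      ((T : ℂ) ^ (I * α * ((s.im - s'.im : ℝ) : ℂ)) * (4 / (4 + ((s.im - s'.im : ℝ) : ℂ) ^ 2)))

/-- `N(T; α, β)`: the number of ordered pairs of ordinates in `(0, T]` (with multiplicity, the
diagonal pairs included) with `2πα / log T ≤ γ - γ' ≤ 2πβ / log T` -/
noncomputable def N (T α β : ℝ) : ℕ :=
  ∑ᶠ s ∈ zeros T, ∑ᶠ s' ∈ {s' : ℂ | s' ∈ zeros T ∧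
    2 * Real.pi * α / Real.log T ≤ s.im - s'.im ∧ s.im - s'.im ≤ 2 * Real.pi * β / Real.log T},
      mult s * mult s'

/-- the constant of the conjecture -/
noncomputable def P (α β : ℝ) : ℝ :=
  (∫ u in α..β, (1 - (Real.sin (Real.pi * u) / (Real.pi * u)) ^ 2)) +
    if α ≤ 0 ∧ 0 ≤ β then 1 else 0

/-- `(T / 2π) log T` -/
noncomputable def X (T : ℝ) : ℝ := T / (2 * Real.pi) * Real.log T

/-- the pair correlation conjecture along the filter `l` (`l = atTop` is the conjecture) -/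
def Montgomery (l : Filter ℝ) : Prop := ∀ α β : ℝ, α < β →
  Asymptotics.IsEquivalent l (fun T => (N T α β : ℝ)) (fun T => P α β * X T)

/-- mass of the closed window `[b, b + ℓ]` under the predicted limit `δ₀ + min(|α|, 1) dα` of `F` -/
noncomputable def mass (b ℓ : ℝ) : ℝ :=
  (∫ α in b..(b + ℓ), min |α| 1) + if b ≤ 0 ∧ 0 ≤ b + ℓ then 1 else 0

/-- mass of the open window `(b, b + ℓ)` -/
noncomputable def massOpen (b ℓ : ℝ) : ℝ :=
  (∫ α in b..(b + ℓ), min |α| 1) + if b < 0 ∧ 0 < b + ℓ then 1 else 0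

/-- upper bounds for `F` on the windows of length `ℓ` -/
def UpperWindows (l : Filter ℝ) (ℓ : ℝ) : Prop := ∀ b ε : ℝ, 0 < ε → ∀ᶠ T in l,
  ∫ α in b..(b + ℓ), (F α T).re ≤ mass b ℓ + ε

/-- lower bounds for `F` on the windows of length `ℓ` -/
def LowerWindows (l : Filter ℝ) (ℓ : ℝ) : Prop := ∀ b ε : ℝ, 0 < ε → ∀ᶠ T in l,
  massOpen b ℓ - ε ≤ ∫ α in b..(b + ℓ), (F α T).re

/-- few small gaps: `N(T; -δ, δ) ≤ (1 + o(δ)) X(T)` as `δ → 0` -/
def Repulsion (l : Filter ℝ) : Prop := ∀ ε : ℝ, 0 < ε → ∃ δ₀ : ℝ, 0 < δ₀ ∧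
  ∀ δ : ℝ, 0 < δ → δ < δ₀ → ∀ᶠ T in l, (N T (-δ) δ : ℝ) ≤ (1 + ε * δ) * X T

/-- **One sided bounds for Montgomery's function on the windows of one arbitrary length decide the
pair correlation conjecture.** -/
theorem result (hRH : RiemannHypothesis) (l : Filter ℝ) (hl : l ≤ atTop) (ℓ : ℝ) (hℓ : 0 < ℓ) :
    (Montgomery l ↔ UpperWindows l ℓ) ∧
    (Montgomery l ↔ LowerWindows l ℓ ∧ Repulsion l) := by
  have hM : Montgomery l ↔ ∀ α β, α < β →
      Tendsto (fun T => Pool.Agent.Y744.Nr T α β) l (𝓝 (Pool.Agent.Y744.pr α β)) :=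
    Pool.Agent.Y744.G.Mont_iff hl
  have hU : UpperWindows l ℓ ↔ Pool.Agent.H7.FF.Upper l ℓ := Iff.rfl
  have hL : LowerWindows l ℓ ↔ Pool.Agent.H7.FF.Lower l ℓ := Iff.rfl
  have hev : ∀ᶠ T in l, 1 < T := hl (eventually_gt_atTop 1)
  have hR : Repulsion l ↔ Pool.Agent.H7.FF.Repul l := by
    have key : ∀ ε δ : ℝ, (∀ᶠ T in l, (N T (-δ) δ : ℝ) ≤ (1 + ε * δ) * X T) ↔
        ∀ᶠ T in l, Pool.Agent.Y744.Nr T (-δ) δ ≤ 1 + ε * δ := by
      intro ε δ
      have h1 : ∀ T : ℝ, 1 < T → ((N T (-δ) δ : ℝ) ≤ (1 + ε * δ) * X T ↔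
          Pool.Agent.Y744.Nr T (-δ) δ ≤ 1 + ε * δ) := by
        intro T hT
        have e1 : (N T (-δ) δ : ℝ) = Pool.Agent.Y744.PC T (Set.Icc (-δ) δ) :=
          Pool.Agent.Y744.G.N_eq hT (-δ) δ
        have e2 : X T = Pool.Agent.Y744.Xf T := Pool.Agent.Y744.G.X_eq T
        unfold Pool.Agent.Y744.Nr
        rw [e1, e2, div_le_iff₀ (Pool.Agent.Y744.Xf_pos hT)]
      constructor
      · intro h
        filter_upwards [h, hev] with T h2 h3 using (h1 T h3).1 h2
      · intro h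
        filter_upwards [h, hev] with T h2 h3 using (h1 T h3).2 h2
    unfold Repulsion Pool.Agent.H7.FF.Repul
    simp only [key]
  have hconj : Montgomery l → ∀ y, 0 < y →
      Tendsto (fun T => Pool.Agent.Y744.Aa T y) l (𝓝 (Pool.Agent.Y744.AG y)) := by
    intro h y hy
    have h1 := (hM.1 h) (-y) y (by linarith)
    rw [Pool.Agent.Y744.ANC.pr_sym hy.le] at h1
    simpa only [Pool.Agent.Y744.ANC.Nr_sym] using h1
  refine ⟨⟨fun h => hU.2 (Pool.Agent.H7.FF.to_upper hRH hl hℓ (hconj h)), fun h => hM.2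
    fun α β hαβ => Pool.Agent.Y744.Nr_all hl (Pool.Agent.H7.FF.of_upper hRH hl hℓ (hU.1 h)) hαβ⟩,
    ⟨fun h => ⟨hL.2 (Pool.Agent.H7.FF.to_lower hRH hl hℓ (hconj h)),
      hR.2 (Pool.Agent.H7.FF.to_repul (hconj h))⟩, fun h => hM.2
    fun α β hαβ => Pool.Agent.Y744.Nr_all hl (Pool.Agent.H7.FF.of_lower hRH hl hℓ (hL.1 h.1)
      (hR.1 h.2)) hαβ⟩⟩

end Pool.Agent.Results.MP_103a5c_nt.FormFactorOneSided
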