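import Mathlib
import Pool.Agent.H23.PC.Eleven

/-!
# The form factor of the zeros of Dirichlet L-functions over `F_q[T]` up to twice the density, and simple zeros

Montgomery's theorem determines the form factor `F(α)` of the zeros of the zeta function for `|α| < 1`, and his
conjecture is `F(α) = 1` beyond. Over `F_q[T]`, `q` fixed, we determine the form factor for the family of all
Dirichlet characters of all moduli of degree `M` in the range `|α| < 2` (`α = n / M`): it is `min (α, 1)`, up to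
`O(1 / M)`. As a consequence eleven twelfths of the zeros are simple. Everything is unconditional, and the constants
do not depend on `q`.

The proof: the explicit formula; for `n > M` the divisors `Q` of the differences of two prime powers are switched with
the complementary divisors, of degree `< n - M`, for which the pairs of prime powers are counted by Weil's bound for
all Hayes characters (`Pool.Agent.Q284.WE` of the starting library); Gauss sums and the conductors of the characters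
for the zeros which are not on the critical circle.
-/

set_option autoImplicit false

namespace Pool.Agent.Results.MP_103a5c_nt.FormFactorToTwo

open Polynomial

variable {F : Type} [Field F] [Fintype F]

/-- the L-function `∑ χ(f) u ^ deg f` (sum over the monic `f`) of the character `χ` modulo `Q`, as a polynomial in
`u`; the terms with `deg f ≥ deg Q` cancel if `χ` is not principal (`LPoly_coeff`) -/
noncomputable def LPoly (Q : F[X]) (χ : MulChar (AdjoinRoot Q) ℂ) : ℂ[X] :=
  ∑ k ∈ Finset.range Q.natDegree,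
    C (∑ᶠ f ∈ {f : F[X] | f.Monic ∧ f.natDegree = k}, χ (AdjoinRoot.mk Q f)) * X ^ k

open Classical in
/-- the zeros of the L-function on the critical circle `|u| = q ^ (-1/2)`, with multiplicities -/
noncomputable def zeros (Q : F[X]) (χ : MulChar (AdjoinRoot Q) ℂ) : Multiset ℂ :=
  (LPoly Q χ).roots.filter (fun u => √(Fintype.card F : ℝ) * ‖u‖ = 1)

/-- the sum of `exp (i n θ)` over the zeros `u = q ^ (-1/2) exp (i θ)` -/
noncomputable def S (n : ℕ) (Q : F[X]) (χ : MulChar (AdjoinRoot Q) ℂ) : ℂ :=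
  ((zeros Q χ).map (fun u => (((√(Fintype.card F : ℝ) : ℝ) : ℂ) * u) ^ n)).sum

/-- the number of simple zeros on the critical circle -/
noncomputable def simple (Q : F[X]) (χ : MulChar (AdjoinRoot Q) ℂ) : ℕ :=
  {u : ℂ | √(Fintype.card F : ℝ) * ‖u‖ = 1 ∧ (LPoly Q χ).rootMultiplicity u = 1}.ncard

variable (F) in
/-- the mean over the nonprincipal characters `χ` modulo `Q` and over the monic `Q` of degree `M`, with the weights
`1 / φ(Q)` and `1 / q ^ M` -/
noncomputable def mean (M : ℕ) (G : (Q : F[X]) → MulChar (AdjoinRoot Q) ℂ → ℝ) : ℝ :=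
  (∑ᶠ Q ∈ {Q : F[X] | Q.Monic ∧ Q.natDegree = M},
    (∑ᶠ χ ∈ {χ : MulChar (AdjoinRoot Q) ℂ | χ ≠ 1}, G Q χ) / Nat.card (AdjoinRoot Q)ˣ) /
    (Fintype.card F : ℝ) ^ M

open Pool.Agent.H23.FF Pool.Agent.H23.PC
open Pool.Agent.H341R2.Sharp (Mon mem_Mon)

theorem set_Mon (k : ℕ) : {R : F[X] | R.Monic ∧ R.natDegree = k} = (Mon F k : Set F[X]) := by
  ext R
  rw [Set.mem_ofPred_eq, Finset.mem_coe, mem_Mon]

theorem LPoly_eq (Q : F[X]) (χ : MulChar (AdjoinRoot Q) ℂ) : LPoly Q χ = Lp Q.natDegree (fn χ) := by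
  unfold LPoly Lp cf
  apply Finset.sum_congr rfl
  intro k _
  rw [set_Mon, finsum_mem_coe_finset]
  rfl

/-- the coefficients of the L-function -/
theorem LPoly_coeff {Q : F[X]} (hQ : Q.Monic) {χ : MulChar (AdjoinRoot Q) ℂ} (hχ : χ ≠ 1) (k : ℕ) :
    (LPoly Q χ).coeff k = ∑ᶠ f ∈ {f : F[X] | f.Monic ∧ f.natDegree = k}, χ (AdjoinRoot.mk Q f) := by
  obtain ⟨D, hD⟩ := exists_cond hQ rfl
  rw [LPoly_eq, Lp_coeff (dc_fn hQ χ) rfl (hD χ hχ).1, set_Mon, finsum_mem_coe_finset]
  rfl

theorem zeros_eq (Q : F[X]) (χ : MulChar (AdjoinRoot Q) ℂ) :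
    zeros Q χ = crit F (Lp Q.natDegree (fn χ)) := by
  unfold zeros crit
  rw [LPoly_eq]
  rfl

theorem S_eq (n : ℕ) (Q : F[X]) (χ : MulChar (AdjoinRoot Q) ℂ) :
    S n Q χ = SF F n (Lp Q.natDegree (fn χ)) := by
  unfold S SF
  rw [zeros_eq]
  rfl

theorem simple_eq {Q : F[X]} (hQ : Q.Monic) {χ : MulChar (AdjoinRoot Q) ℂ} (hχ : χ ≠ 1) :
    simple Q χ = nsim (crit F (Lp Q.natDegree (fn χ))) := by
  classical
  obtain ⟨D, hD⟩ := exists_cond hQ rfl
  have hne := Lp_ne (dc_fn hQ χ) rfl (hD χ hχ).1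
  unfold simple nsim
  rw [LPoly_eq]
  set a := Lp Q.natDegree (fn χ) with ha
  set s := crit F a with hs
  have hcount : ∀ u : ℂ, s.count u = if √(q F) * ‖u‖ = 1 then a.rootMultiplicity u else 0 := by
    intro u
    rw [hs]
    unfold crit
    split_ifs with h
    · rw [Multiset.count_filter_of_pos (p := fun z : ℂ => √(q F) * ‖z‖ = 1) h, count_roots]
    · rw [Multiset.count_filter_of_neg (p := fun z : ℂ => √(q F) * ‖z‖ = 1) h]
  have hnd : (s.filter (fun z => s.count z = 1)).Nodup := by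
    rw [Multiset.nodup_iff_count_le_one]
    intro u
    by_cases h : s.count u = 1
    · rw [Multiset.count_filter_of_pos (p := fun z : ℂ => s.count z = 1) h, h]
    · rw [Multiset.count_filter_of_neg (p := fun z : ℂ => s.count z = 1) h]
      exact zero_le_one
  rw [← Multiset.toFinset_card_of_nodup hnd, ← Set.ncard_coe_finset]
  congr 1
  ext u
  rw [Set.mem_ofPred_eq, Finset.mem_coe, Multiset.mem_toFinset, Multiset.mem_filter, hcount u]
  constructor
  · rintro ⟨h1, h2⟩
    have h1' : √(q F) * ‖u‖ = 1 := h1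
    rw [if_pos h1']
    refine ⟨?_, h2⟩
    rw [← Multiset.count_pos, hcount u, if_pos h1', h2]
    exact one_pos
  · rintro ⟨h1, h2⟩
    by_cases h3 : √(q F) * ‖u‖ = 1
    · rw [if_pos h3] at h2
      exact ⟨h3, h2⟩
    · rw [if_neg h3] at h2
      exact absurd h2 zero_ne_one

theorem mean_eq (M : ℕ) (G : (Q : F[X]) → MulChar (AdjoinRoot Q) ℂ → ℝ) :
    mean F M G = (∑ Q ∈ Mon F M, Av Q (G Q)) / q F ^ M := by
  unfold mean
  rw [set_Mon, finsum_mem_coe_finset]
  congr 1
  apply Finset.sum_congr rfl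
  intro Q hQ
  rw [card_units (mem_Mon.1 hQ).1]
  rfl

theorem mean_congr (M : ℕ) {G H : (Q : F[X]) → MulChar (AdjoinRoot Q) ℂ → ℝ}
    (h : ∀ Q ∈ Mon F M, ∀ χ : MulChar (AdjoinRoot Q) ℂ, χ ≠ 1 → G Q χ = H Q χ) :
    ∑ Q ∈ Mon F M, Av Q (G Q) = ∑ Q ∈ Mon F M, Av Q (H Q) := by
  apply Finset.sum_congr rfl
  intro Q hQ
  have hQm := (mem_Mon.1 hQ).1
  exact le_antisymm (Av_mono hQm fun χ hχ => (h Q hQ χ hχ).le)
    (Av_mono hQm fun χ hχ => (h Q hQ χ hχ).ge)

/-- **The form factor up to twice the density, and simple zeros.**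

There is an absolute constant `C` such that for every finite field `F` with `q` elements and all `M ≥ 1`, for the
mean over the nonprincipal Dirichlet characters of all monic moduli of degree `M`:
(1) for all `n ≥ 1` the mean of `|∑ exp (i n θ)| ^ 2` is `min (n, M) + O(1 + n ^ 2 q ^ (n - 2 M))`;
(2) the mean number of zeros on the critical circle is `M + O(1)`;
(3) the mean number of simple zeros on the critical circle is at least `(11 / 12) M - O(1 + log M)`. -/
theorem result : ∃ C : ℝ, ∀ (F : Type) [Field F] [Fintype F] (M : ℕ), 1 ≤ M →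
    (∀ n : ℕ, 1 ≤ n → |mean F M (fun Q χ => ‖S n Q χ‖ ^ 2) - min n M| ≤
      C * (1 + (n : ℝ) ^ 2 * (Fintype.card F : ℝ) ^ n / (Fintype.card F : ℝ) ^ (2 * M))) ∧
    |mean F M (fun Q χ => (Multiset.card (zeros Q χ) : ℝ)) - M| ≤ C ∧
    11 / 12 * (M : ℝ) - C * (1 + Real.log M) ≤ mean F M (fun Q χ => (simple Q χ : ℝ)) := by
  have hC := C0_pos
  refine ⟨6 * (75 + 62 * C0) + 100 * (1 + C0) + 1, ?_⟩
  intro F _ _ M hM
  have hq := q_pos F
  have hqM : 0 < q F ^ M := by positivity
  refine ⟨?_, ?_, ?_⟩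
  · intro n hn
    rw [mean_eq, mean_congr M (H := fun Q χ => ‖SF F n (Lp M (fn χ))‖ ^ 2)]
    · have h1 := form F M hn
      have e : ((min n M : ℕ) : ℝ) = min (n : ℝ) (M : ℝ) := Nat.cast_min n M
      rw [e] at h1
      have h2 : (∑ Q ∈ Mon F M, Av Q (fun χ => ‖SF F n (Lp M (fn χ))‖ ^ 2)) / q F ^ M -
          min (n : ℝ) (M : ℝ) = (∑ Q ∈ Mon F M, Av Q (fun χ => ‖SF F n (Lp M (fn χ))‖ ^ 2) -
          q F ^ M * min (n : ℝ) (M : ℝ)) / q F ^ M := by
        field_simp
      rw [e, h2, abs_div, abs_of_pos hqM, div_le_iff₀ hqM]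
      refine h1.trans ?_
      change _ ≤ (6 * (75 + 62 * C0) + 100 * (1 + C0) + 1) *
        (1 + (n : ℝ) ^ 2 * q F ^ n / q F ^ (2 * M)) * q F ^ M
      have h3 : (0 : ℝ) ≤ 1 + (n : ℝ) ^ 2 * q F ^ n / q F ^ (2 * M) := by positivity
      calc q F ^ M * ((75 + 62 * C0) * (1 + (n : ℝ) ^ 2 * q F ^ n / q F ^ (2 * M)))
          ≤ q F ^ M * ((6 * (75 + 62 * C0) + 100 * (1 + C0) + 1) *
            (1 + (n : ℝ) ^ 2 * q F ^ n / q F ^ (2 * M))) := by
            apply mul_le_mul_of_nonneg_left _ hqM.le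
            apply mul_le_mul_of_nonneg_right _ h3
            linarith
        _ = _ := by ring
    · intro Q hQ χ _
      change ‖S n Q χ‖ ^ 2 = ‖SF F n (Lp M (fn χ))‖ ^ 2
      rw [S_eq, (mem_Mon.1 hQ).2]
  · rw [mean_eq, mean_congr M (H := fun Q χ => ((crit F (Lp M (fn χ))).card : ℝ))]
    · have h1 := N_avg F (M := M)
      have h2 : ∑ Q ∈ Mon F M, Av Q (fun χ => ((crit F (Lp M (fn χ))).card : ℝ)) ≤ q F ^ M * M := by
        have h3 : ∀ Q ∈ Mon F M, Av Q (fun χ => ((crit F (Lp M (fn χ))).card : ℝ)) ≤ M := by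
          intro Q hQ
          have hQm := (mem_Mon.1 hQ).1
          have h4 : Av Q (fun χ => ((crit F (Lp M (fn χ))).card : ℝ)) ≤ Av Q (fun _ => (M : ℝ) * 1) := by
            apply Av_mono hQm
            intro χ _
            rw [mul_one]
            exact_mod_cast crit_card_le hM (fn χ)
          rw [Av_mul hQm, Av_one hQm] at h4
          have h5 : (0 : ℝ) ≤ 1 / phi Q := by positivity
          have h6 : (0 : ℝ) ≤ M := Nat.cast_nonneg M
          nlinarith
        refine (Finset.sum_le_sum h3).trans ?_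
        rw [Finset.sum_const, nsmul_eq_mul, card_Mon_q]
      have h3 : (M : ℝ) - 50 * (1 + C0) ≤
          (∑ Q ∈ Mon F M, Av Q (fun χ => ((crit F (Lp M (fn χ))).card : ℝ))) / q F ^ M := by
        rw [le_div_iff₀ hqM, mul_comm]
        exact h1
      have h4 : (∑ Q ∈ Mon F M, Av Q (fun χ => ((crit F (Lp M (fn χ))).card : ℝ))) / q F ^ M ≤ M := by
        rw [div_le_iff₀ hqM, mul_comm]
        exact h2
      rw [abs_le]
      constructor <;> linarith
    · intro Q hQ χ _
      change (Multiset.card (zeros Q χ) : ℝ) = ((crit F (Lp M (fn χ))).card : ℝ)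
      rw [zeros_eq, (mem_Mon.1 hQ).2]
  · rw [mean_eq, mean_congr M (H := fun Q χ => (nsim (crit F (Lp M (fn χ))) : ℝ))]
    · rw [le_div_iff₀ hqM, mul_comm]
      exact eleven F hM
    · intro Q hQ χ hχ
      change (simple Q χ : ℝ) = (nsim (crit F (Lp M (fn χ))) : ℝ)
      rw [simple_eq (mem_Mon.1 hQ).1 hχ, (mem_Mon.1 hQ).2]

end Pool.Agent.Results.MP_103a5c_nt.FormFactorToTwo
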