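import Pool.Agent.H7.PS.Hyp2

/-!
# An upper bound for the variance of primes in short intervals decides the pair correlation conjecture

Let `V(X; H) = (1/X) ∫_X^{2X} |ψ(x; H) - H|² dx`, where `ψ(x; H)` is the weighted number of prime powers
in the interval of length `H` centred at `x`.  Goldston and Montgomery showed (RH) that the asymptotic
formula `V(X; H) ~ H log(X/H)`, uniformly for `1 ≤ H ≤ X^(1-ε)`, is equivalent to `F(α) ~ 1`,
uniformly for `1 ≤ α ≤ A`.  Here only the UPPER half of the formula is assumed, for
`X^ε ≤ H ≤ X^(1-ε)`, with an upper bound of the right order of magnitude for the shorter intervals.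
It implies the Riemann hypothesis and Montgomery's pair correlation conjecture.  So if the
conjecture fails then the primes are MORE irregular than expected at some scales: there are
arbitrarily large `X` and `H` between `X^ε` and `X^(1-ε)` with `V(X; H) > (1 + ε) H log(X/H)`, or the
order of magnitude is wrong for `H = X^o(1)`.

Idea of the proof.  Mixtures over the heights `τT` of the pair sums of zeros with the kernel
`τ/(c²+τ²) - τ/(4c²+τ²)` are, up to small errors, nonnegative superpositions of the mean squares of
`ψ(x+h) - ψ(x) - h`, the weight of `h` being `(1+h/x)^(-cT)`.  So the upper half bounds from above the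
form factor of each limit of the mixed pair correlation measures, against all nonnegative test
functions.  Montgomery's theorem and the positivity of the pair sums against long test functions
then force equality, and the mixture is undone by a uniqueness theorem for the kernel.
-/

open Filter Topology

namespace Pool.Agent.Results.MP_103a5c_nt.PrimeVarianceUpper

/-- the nontrivial zeros of `ζ` with ordinate in `(0, T]` -/
def zeros (T : ℝ) : Set ℂ :=
  {s : ℂ | 0 < s.re ∧ s.re < 1 ∧ 0 < s.im ∧ s.im ≤ T ∧ riemannZeta s = 0}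

/-- the multiplicity of `s` as a zero of `ζ` -/
noncomputable def mult (s : ℂ) : ℕ := analyticOrderNatAt riemannZeta s

/-- `N(T; α, β)`: the number of ordered pairs of ordinates in `(0, T]` (with multiplicity, the
diagonal pairs included) with `2πα / log T ≤ γ - γ' ≤ 2πβ / log T` -/
noncomputable def N (T α β : ℝ) : ℕ :=
  ∑ᶠ s ∈ zeros T, ∑ᶠ s' ∈ {s' : ℂ | s' ∈ zeros T ∧
    2 * Real.pi * α / Real.log T ≤ s.im - s'.im ∧ s.im - s'.im ≤ 2 * Real.pi * β / Real.log T},
      mult s * mult s'

/-- the constant of the conjecture -/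
noncomputable def P (α β : ℝ) : ℝ :=
  (∫ u in α..β, (1 - (Real.sin (Real.pi * u) / (Real.pi * u)) ^ 2)) +
    if α ≤ 0 ∧ 0 ≤ β then 1 else 0

/-- the pair correlation conjecture -/
def PairCorrelation : Prop := ∀ α β : ℝ, α < β →
  Asymptotics.IsEquivalent atTop (fun T => (N T α β : ℝ))
    (fun T => P α β * (T / (2 * Real.pi) * Real.log T))

/-- `ψ(x; H)`: the weighted number of prime powers in the interval of length `H` centred at `x` -/
noncomputable def psi (x H : ℝ) : ℝ :=
  ∑ᶠ n ∈ {n : ℕ | 1 ≤ n ∧ x - H / 2 ≤ n ∧ (n : ℝ) ≤ x + H / 2}, ArithmeticFunction.vonMangoldt n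

/-- the mean square of the error over `[X, 2X]` -/
noncomputable def V (X H : ℝ) : ℝ := (1 / X) * ∫ x in X..2 * X, |psi x H - H| ^ 2

/-- the upper half of the conjectured asymptotic formula, uniformly for `X^ε ≤ H ≤ X^(1-ε)` -/
def UpperHalf : Prop := ∀ ε : ℝ, 0 < ε → ∀ᶠ X : ℝ in atTop, ∀ H : ℝ, X ^ ε ≤ H → H ≤ X ^ (1 - ε) →
  V X H ≤ (1 + ε) * (H * Real.log (X / H))

/-- the order of magnitude for the shorter intervals -/
def ShortBound : Prop := ∃ δ C : ℝ, 0 < δ ∧ ∀ᶠ X : ℝ in atTop, ∀ H : ℝ, 1 ≤ H → H ≤ X ^ δ →
  V X H ≤ C * (H * Real.log X)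

/-- **The upper half of the asymptotic formula for the variance of primes in short intervals implies
the Riemann hypothesis and the pair correlation conjecture.** -/
theorem result (h1 : UpperHalf) (h2 : ShortBound) : RiemannHypothesis ∧ PairCorrelation := by
  have h : Pool.Agent.H7.PS.HypV := ⟨h1, h2⟩
  refine ⟨h.RH, ?_⟩
  have hM : PairCorrelation ↔ ∀ α β, α < β →
      Tendsto (fun T => Pool.Agent.Y744.Nr T α β) atTop (𝓝 (Pool.Agent.Y744.pr α β)) :=
    Pool.Agent.Y744.G.Mont_iff le_rfl
  rw [hM]
  intro α β hαβ
  exact Pool.Agent.Y744.Nr_all le_rfl (Pool.Agent.H7.PS.Aa_limit h.RH h.toU) hαβ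

end Pool.Agent.Results.MP_103a5c_nt.PrimeVarianceUpper
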